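import Mathlib

set_option autoImplicit false

/-!
There is a class `ω ∈ H^4(Z^8)` whose form `φ_ω` on `H^2(Z^8)` is unimodular and isometric to
`E_8 + 10 H`.  The class is (indices 0, ..., 7)

`ω = - x1235 + x0345 - x0146 - x1246 + x0346 + x0256 - x0237 - x1347 - x0157 - x1457 - x2457
     - x0167 + x3567`.
-/

open ExteriorAlgebra Module

namespace Pool.Agent.Results.MP_69cf13_gt.EEightPlusTenH

/-- The cohomology ring `H^*(Z^n)`: the exterior algebra on `x_1, ..., x_n`. -/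
abbrev Coh (n : ℕ) := ExteriorAlgebra ℤ (Fin n → ℤ)

/-- The degree `k` part of the exterior algebra of `M`. -/
def DegreePart (M : Type) [AddCommGroup M] (k : ℕ) : Set (ExteriorAlgebra ℤ M) :=
  {z | z ∈ ⋀[ℤ]^k M}

/-- The cohomology group `H^k(Z^n)`, the degree `k` part of `H^*(Z^n)`. -/
abbrev H (n k : ℕ) : Set (Coh n) := DegreePart (Fin n → ℤ) k

/-- The generator `[T] = x_1 x_2 ... x_n` of `H^n(Z^n)`. -/
noncomputable def T (n : ℕ) : Coh n :=
  ιMulti ℤ n (fun i => (Pi.single i 1 : Fin n → ℤ))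

/-- `φ` is the form of `ω` on the subgroup `S` with respect to the generator `t`:
`x y ω = φ(x, y) t` for all `x, y ∈ S`. -/
def IsFormOf {A : Type} [Ring A] (S : Set A) (ω t : A) (φ : A → A → ℤ) : Prop :=
  ∀ x ∈ S, ∀ y ∈ S, x * y * ω = φ x y • t

/-- The family `b` is a `Z`-basis of the subgroup `S`. -/
def IsZBasis {A κ : Type} [AddCommGroup A] (S : Set A) (b : κ → A) : Prop :=
  (∀ i, b i ∈ S) ∧ LinearIndependent ℤ b ∧ ∀ z ∈ S, z ∈ Submodule.span ℤ (Set.range b)

/-- The Gram matrix of the lattice `E_8 + 10 H`. -/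
def gramE8H10 : Matrix (Fin 8 ⊕ Fin 2 × Fin 10) (Fin 8 ⊕ Fin 2 × Fin 10) ℤ :=
  Matrix.fromBlocks CartanMatrix.E₈ 0 0 (Matrix.blockDiagonal fun _ => !![0, 1; 1, 0])

namespace Aux

/-- generators -/
noncomputable def e (n : ℕ) (i : ℕ) : ExteriorAlgebra ℤ (Fin n → ℤ) :=
  if h : i < n then ι ℤ (Pi.single (⟨i, h⟩ : Fin n) 1) else 0

theorem e_sq (n i : ℕ) : e n i * e n i = 0 := by
  unfold e; split
  · exact ι_sq_zero _
  · simp

theorem e_swap (n i j : ℕ) : e n i * e n j = - (e n j * e n i) := by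
  unfold e; split <;> split
  · exact eq_neg_of_add_eq_zero_left (ι_add_mul_swap _ _)
  all_goals simp

/-- monomials -/
noncomputable def mon (n : ℕ) (l : List ℕ) : ExteriorAlgebra ℤ (Fin n → ℤ) := (l.map (e n)).prod

@[simp] theorem mon_nil (n : ℕ) : mon n [] = 1 := rfl
@[simp] theorem mon_cons (n a : ℕ) (l : List ℕ) : mon n (a :: l) = e n a * mon n l := by
  simp [mon]
theorem mon_append (n : ℕ) (l m : List ℕ) : mon n (l ++ m) = mon n l * mon n m := by
  simp [mon]

/-- signed insertion -/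
def ins (a : ℕ) : List ℕ → ℤ × List ℕ
  | [] => (1, [a])
  | b :: t => if a < b then (1, a :: b :: t) else if a = b then (0, b :: t) else
      (-(ins a t).1, b :: (ins a t).2)

theorem ins_spec (n a : ℕ) (l : List ℕ) : e n a * mon n l = (ins a l).1 • mon n (ins a l).2 := by
  induction l with
  | nil => simp [ins]
  | cons b t ih =>
    unfold ins
    split_ifs with h1 h2
    · simp
    · subst h2
      simp [← mul_assoc, e_sq]
    · simp only [mon_cons]
      rw [← mul_assoc, e_swap, neg_mul, mul_assoc, ih, mul_smul_comm, neg_smul]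

/-- signed sorting -/
def nf : List ℕ → ℤ × List ℕ
  | [] => (1, [])
  | a :: l => ((nf l).1 * (ins a (nf l).2).1, (ins a (nf l).2).2)

theorem nf_spec (n : ℕ) (l : List ℕ) : mon n l = (nf l).1 • mon n (nf l).2 := by
  induction l with
  | nil => simp [nf]
  | cons a t ih =>
    rw [mon_cons, ih, mul_smul_comm, ins_spec, smul_smul]
    rfl

/-- formal sums of monomials -/
abbrev FS := List (ℤ × List ℕ)

noncomputable def ev (n : ℕ) (p : FS) : ExteriorAlgebra ℤ (Fin n → ℤ) :=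
  (p.map fun t => t.1 • mon n t.2).sum

@[simp] theorem ev_nil (n : ℕ) : ev n [] = 0 := rfl
@[simp] theorem ev_cons (n : ℕ) (t : ℤ × List ℕ) (p : FS) :
    ev n (t :: p) = t.1 • mon n t.2 + ev n p := by simp [ev]
@[simp] theorem ev_append (n : ℕ) (p q : FS) : ev n (p ++ q) = ev n p + ev n q := by
  simp [ev]

def mulT (t : ℤ × List ℕ) (q : FS) : FS := q.map fun s => (t.1 * s.1, t.2 ++ s.2)

theorem ev_mulT (n : ℕ) (t : ℤ × List ℕ) (q : FS) :
    ev n (mulT t q) = (t.1 • mon n t.2) * ev n q := by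
  induction q with
  | nil => simp [mulT]
  | cons s q ih =>
    have : mulT t (s :: q) = (t.1 * s.1, t.2 ++ s.2) :: mulT t q := rfl
    rw [this, ev_cons, ev_cons, ih, mul_add, mon_append, smul_mul_smul_comm]

def mul : FS → FS → FS
  | [], _ => []
  | t :: p, q => mulT t q ++ mul p q

theorem ev_mul (n : ℕ) (p q : FS) : ev n (mul p q) = ev n p * ev n q := by
  induction p with
  | nil => simp [mul]
  | cons t p ih => simp [mul, ev_mulT, ih, add_mul]

/-- coefficient of the sorted monomial `m`, provided all other monomials vanish -/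
def coef (m : List ℕ) : FS → Option ℤ
  | [] => some 0
  | t :: p =>
    match coef m p with
    | none => none
    | some c =>
      if (nf t.2).1 = 0 then some c
      else if (nf t.2).2 = m then some (c + t.1 * (nf t.2).1) else none

theorem coef_spec (n : ℕ) (m : List ℕ) (p : FS) (c : ℤ) (h : coef m p = some c) :
    ev n p = c • mon n m := by
  induction p generalizing c with
  | nil =>
    simp only [coef, Option.some.injEq] at h
    subst h; simp
  | cons t p ih =>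
    unfold coef at h
    rcases hc : coef m p with _ | c'
    · simp [hc] at h
    · rw [hc] at h
      simp only at h
      rw [ev_cons, ih c' hc, nf_spec]
      split_ifs at h with h1 h2
      · simp only [Option.some.injEq] at h
        subst h; simp [h1]
      · simp only [Option.some.injEq] at h
        subst h
        rw [h2, smul_smul, ← add_smul, add_comm]

/-- the class -/
def omega : FS := [(-1, [1, 2, 3, 5]), (1, [0, 3, 4, 5]), (-1, [0, 1, 4, 6]), (-1, [1, 2, 4, 6]), (1, [0, 3, 4, 6]), (1, [0, 2, 5, 6]), (-1, [0, 2, 3, 7]), (-1, [1, 3, 4, 7]), (-1, [0, 1, 5, 7]), (-1, [1, 4, 5, 7]), (-1, [2, 4, 5, 7]), (-1, [0, 1, 6, 7]), (1, [3, 5, 6, 7])]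

def tabE : List FS :=
  [[(-1, [0, 5]), (1, [1, 3]), (-1, [1, 7]), (1, [2, 5]), (-1, [3, 4])],
   [(-1, [0, 3]), (-1, [1, 2]), (-1, [1, 3]), (1, [1, 5]), (1, [1, 6]), (-1, [2, 3]), (-1, [4, 5]), (-1, [5, 7]), (-1, [6, 7])],
   [(-1, [0, 4]), (-1, [0, 6]), (-1, [1, 5]), (-1, [1, 6]), (1, [2, 3]), (1, [4, 7]), (1, [5, 7])],
   [(1, [0, 4]), (1, [1, 2]), (1, [6, 7])],
   [(-1, [0, 2]), (1, [0, 5]), (1, [0, 6]), (-1, [1, 2]), (-1, [2, 5]), (-1, [2, 6]), (1, [3, 7]), (-1, [4, 7]), (-1, [5, 7]), (-1, [6, 7])],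
   [(1, [0, 2]), (-1, [0, 5]), (-1, [1, 4]), (1, [5, 6])],
   [(-1, [0, 1]), (-1, [0, 2]), (-1, [2, 4]), (1, [3, 6]), (-1, [5, 6])],
   [(1, [0, 1]), (1, [0, 7]), (-1, [1, 5]), (1, [2, 7]), (1, [3, 5]), (-1, [4, 5]), (-1, [4, 6])]]
def tabU : List FS :=
  [[(1, [0, 1])],
   [(1, [0, 2])],
   [(1, [0, 3])],
   [(1, [0, 4])],
   [(1, [0, 6])],
   [(1, [0, 7])],
   [(1, [1, 7])],
   [(1, [0, 5])],
   [(-1, [0, 7]), (1, [1, 5])],
   [(-1, [0, 7]), (1, [1, 3]), (1, [2, 3])]]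
def tabV : List FS :=
  [[(-1, [2, 4])],
   [(1, [1, 4])],
   [(1, [1, 6])],
   [(-1, [1, 2])],
   [(-1, [1, 3])],
   [(1, [4, 6])],
   [(-1, [3, 4])],
   [(1, [0, 2]), (-1, [3, 7])],
   [(1, [0, 3]), (1, [2, 7])],
   [(-1, [0, 3]), (-1, [4, 5])]]

def bas : (Fin 8 ⊕ Fin 2 × Fin 10) → FS
  | .inl i => tabE.getD i []
  | .inr (a, k) => if a = 0 then tabU.getD k [] else tabV.getD k []

theorem gram_check : ∀ i j : Fin 8 ⊕ Fin 2 × Fin 10,
    coef [0, 1, 2, 3, 4, 5, 6, 7] (mul (mul (bas i) (bas j)) omega) = some (gramE8H10 i j) := by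
  decide +kernel


/-! ### the volume functional -/

/-- the top degree coefficient -/
noncomputable def vol (n : ℕ) : ExteriorAlgebra ℤ (Fin n → ℤ) →ₗ[ℤ] ℤ :=
  liftAlternating (R := ℤ) (M := Fin n → ℤ) (N := ℤ)
    (fun k => if h : k = n then by subst h; exact (Pi.basisFun ℤ (Fin k)).det else 0)

theorem vol_ιMulti (n : ℕ) (v : Fin n → (Fin n → ℤ)) :
    vol n (ιMulti ℤ n v) = (Pi.basisFun ℤ (Fin n)).det v := by
  simp [vol, liftAlternating_apply_ιMulti]

theorem T_eq (n : ℕ) : T n = ιMulti ℤ n (Pi.basisFun ℤ (Fin n)) := by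
  unfold T; congr 1; funext i; simp

theorem vol_T (n : ℕ) : vol n (T n) = 1 := by
  rw [T_eq, vol_ιMulti, Basis.det_self]

theorem ιMulti_eq (n : ℕ) (v : Fin n → (Fin n → ℤ)) :
    ιMulti ℤ n v = (Pi.basisFun ℤ (Fin n)).det v • T n := by
  have h : ιMulti ℤ n (M := Fin n → ℤ) =
      (LinearMap.toSpanSingleton ℤ (ExteriorAlgebra ℤ (Fin n → ℤ)) (T n)).compAlternatingMap
        (Pi.basisFun ℤ (Fin n)).det := by
    apply Basis.ext_alternating (Pi.basisFun ℤ (Fin n))
    intro u hu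
    obtain ⟨σ, hσ⟩ : ∃ σ : Equiv.Perm (Fin n), ⇑σ = u :=
      ⟨Equiv.ofBijective u (Finite.injective_iff_bijective.mp hu), rfl⟩
    subst hσ
    have h1 := (ιMulti ℤ n (M := Fin n → ℤ)).map_perm (Pi.basisFun ℤ (Fin n)) σ
    have h2 := (Pi.basisFun ℤ (Fin n)).det.map_perm (Pi.basisFun ℤ (Fin n)) σ
    have h3 : (fun i => (Pi.basisFun ℤ (Fin n)) (σ i)) = (Pi.basisFun ℤ (Fin n)) ∘ σ := rfl
    rw [LinearMap.compAlternatingMap_apply, h3]
    erw [h1, h2]
    rw [Basis.det_self, ← T_eq]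
    simp [LinearMap.toSpanSingleton_apply, Units.smul_def]
  rw [h]
  simp [LinearMap.toSpanSingleton_apply]

theorem top_eq (n : ℕ) (z : ExteriorAlgebra ℤ (Fin n → ℤ)) (hz : z ∈ ⋀[ℤ]^n (Fin n → ℤ)) :
    z = vol n z • T n := by
  rw [← ιMulti_span_fixedDegree] at hz
  induction hz using Submodule.span_induction with
  | mem x hx =>
    obtain ⟨v, rfl⟩ := hx
    rw [vol_ιMulti, ιMulti_eq]
  | zero => simp
  | add x y _ _ hx hy => rw [map_add, add_smul, ← hx, ← hy]
  | smul a x _ hx => rw [map_smul, smul_eq_mul, mul_smul, ← hx]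

/-- the form of a class -/
noncomputable def form (n : ℕ) (w : ExteriorAlgebra ℤ (Fin n → ℤ)) :
    LinearMap.BilinForm ℤ (⋀[ℤ]^2 (Fin n → ℤ)) :=
  LinearMap.mk₂ ℤ (fun x y => vol n ((x : ExteriorAlgebra ℤ (Fin n → ℤ)) * y * w))
    (by intro a b c; simp only [Submodule.coe_add, add_mul, map_add])
    (by intro c a b; simp only [Submodule.coe_smul, smul_mul_assoc, map_smul])
    (by intro a b c; simp only [Submodule.coe_add, mul_add, add_mul, map_add])
    (by intro c a b; simp only [Submodule.coe_smul, smul_mul_assoc, mul_smul_comm, map_smul])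

theorem form_spec (w : Coh 8) (hw : w ∈ H 8 4) :
    IsFormOf (H 8 2) w (T 8) (fun x y => vol 8 (x * y * w)) := by
  intro x hx y hy
  apply top_eq
  have h1 : x * y ∈ (⋀[ℤ]^2 (Fin 8 → ℤ)) * (⋀[ℤ]^2 (Fin 8 → ℤ)) :=
    Submodule.mul_mem_mul hx hy
  have hw' : w ∈ ⋀[ℤ]^4 (Fin 8 → ℤ) := hw
  have h2 := Submodule.mul_mem_mul h1 hw'
  have h3 : (⋀[ℤ]^2 (Fin 8 → ℤ)) * (⋀[ℤ]^2 (Fin 8 → ℤ)) * (⋀[ℤ]^4 (Fin 8 → ℤ)) =
      ⋀[ℤ]^8 (Fin 8 → ℤ) := by
    rw [← pow_add, ← pow_add]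
  rw [h3] at h2
  exact h2

theorem e_mem (n i : ℕ) : e n i ∈ LinearMap.range (ι ℤ (M := Fin n → ℤ)) := by
  unfold e; split
  · exact ⟨_, rfl⟩
  · exact zero_mem _

theorem mon_mem (n : ℕ) (l : List ℕ) : mon n l ∈ ⋀[ℤ]^l.length (Fin n → ℤ) := by
  induction l with
  | nil => rw [mon_nil, List.length_nil, exteriorPower, pow_zero]; exact Submodule.one_le.mp le_rfl
  | cons a l ih =>
    rw [mon_cons, List.length_cons, add_comm]
    have := Submodule.mul_mem_mul (e_mem n a) ih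
    rw [exteriorPower, pow_add, pow_one]
    exact this

theorem ev_mem (n k : ℕ) (p : FS) (h : ∀ t ∈ p, t.2.length = k) : ev n p ∈ ⋀[ℤ]^k (Fin n → ℤ) := by
  induction p with
  | nil => simp
  | cons t p ih =>
    rw [ev_cons]
    refine add_mem (Submodule.smul_mem _ _ ?_) (ih fun s hs => h s (by simp [hs]))
    rw [← h t (by simp)]
    exact mon_mem n t.2

theorem mon8 : mon 8 [0, 1, 2, 3, 4, 5, 6, 7] = T 8 := by
  rw [T, ιMulti_apply, mon]
  congr 1

theorem exists_basis_of_gram {κ M : Type*} [Fintype κ] [DecidableEq κ] [AddCommGroup M]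
    [Module.Free ℤ M] [Module.Finite ℤ M] (φ : LinearMap.BilinForm ℤ M) (b : κ → M)
    (hcard : Fintype.card κ = finrank ℤ M) (G' : Matrix κ κ ℤ)
    (hG : (Matrix.of fun i j => φ (b i) (b j)) * G' = 1) :
    ∃ B : Basis κ ℤ M, ∀ i, B i = b i := by
  set G : Matrix κ κ ℤ := Matrix.of fun i j => φ (b i) (b j) with hGdef
  have hG2 : G' * G = 1 := mul_eq_one_comm.mp hG
  have key : ∀ c : κ → ℤ, Matrix.vecMul c G = 0 → c = 0 := by
    intro c hc
    have : Matrix.vecMul (Matrix.vecMul c G) G' = 0 := by rw [hc]; simp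
    rwa [Matrix.vecMul_vecMul, hG, Matrix.vecMul_one] at this
  have hpair : ∀ (c : κ → ℤ) (j : κ), φ (∑ i, c i • b i) (b j) = Matrix.vecMul c G j := by
    intro c j
    simp [Matrix.vecMul, dotProduct, hGdef]
  have hli : LinearIndependent ℤ b := by
    rw [Fintype.linearIndependent_iff]
    intro c hc
    have : c = 0 := by
      apply key
      funext j
      rw [← hpair, hc]; simp
    intro i; rw [this]; rfl
  have hsp : ⊤ ≤ Submodule.span ℤ (Set.range b) := by
    intro x _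
    set c : κ → ℤ := Matrix.vecMul (fun j => φ x (b j)) G' with hcdef
    set y := x - ∑ i, c i • b i with hy
    have hyb : ∀ j, φ y (b j) = 0 := by
      intro j
      rw [hy, map_sub, LinearMap.sub_apply, hpair, hcdef, Matrix.vecMul_vecMul, hG2,
        Matrix.vecMul_one, sub_self]
    have hnot : ¬ LinearIndependent ℤ (fun o : Option κ => o.elim y b) := by
      intro h
      have := h.fintype_card_le_finrank
      rw [Fintype.card_option, hcard] at this
      omega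
    rw [Fintype.not_linearIndependent_iff] at hnot
    obtain ⟨g, hg, i0, hi0⟩ := hnot
    rw [Fintype.sum_option] at hg
    simp only [Option.elim_none, Option.elim_some] at hg
    have hg0 : (fun i => g (some i)) = 0 := by
      apply key
      funext j
      rw [← hpair]
      have h2 := congrArg (fun z => φ z (b j)) hg
      simpa [hyb j] using h2
    have hg0' : ∀ i, g (some i) = 0 := fun i => congrFun hg0 i
    have hgn : g none ≠ 0 := by
      rcases i0 with _ | i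
      · exact hi0
      · exact absurd (hg0' i) hi0
    have hy0 : y = 0 := by
      simp only [hg0', zero_smul, Finset.sum_const_zero, add_zero] at hg
      exact (smul_eq_zero.mp hg).resolve_left hgn
    have hx : x = ∑ i, c i • b i := by
      rw [hy, sub_eq_zero] at hy0; exact hy0
    rw [hx]
    exact Submodule.sum_mem _ fun i _ =>
      Submodule.smul_mem _ _ (Submodule.subset_span ⟨i, rfl⟩)
  exact ⟨Basis.mk hli hsp, fun i => by simp⟩

def E8inv : Matrix (Fin 8) (Fin 8) ℤ :=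
  !![4, 5, 7, 10, 8, 6, 4, 2;
     5, 8, 10, 15, 12, 9, 6, 3;
     7, 10, 14, 20, 16, 12, 8, 4;
     10, 15, 20, 30, 24, 18, 12, 6;
     8, 12, 16, 24, 20, 15, 10, 5;
     6, 9, 12, 18, 15, 12, 8, 4;
     4, 6, 8, 12, 10, 8, 6, 3;
     2, 3, 4, 6, 5, 4, 3, 2]

def gramInv : Matrix (Fin 8 ⊕ Fin 2 × Fin 10) (Fin 8 ⊕ Fin 2 × Fin 10) ℤ :=
  Matrix.fromBlocks E8inv 0 0 (Matrix.blockDiagonal fun _ => !![0, 1; 1, 0])

theorem gram_mul : gramE8H10 * gramInv = 1 := by
  have h1 : CartanMatrix.E₈ * E8inv = 1 := by decide +kernel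
  have h2 : (!![0, 1; 1, 0] : Matrix (Fin 2) (Fin 2) ℤ) * !![0, 1; 1, 0] = 1 := by decide +kernel
  unfold gramE8H10 gramInv
  rw [Matrix.fromBlocks_multiply, h1, ← Matrix.blockDiagonal_mul]
  simp only [h2]
  have : (fun _ : Fin 10 => (1 : Matrix (Fin 2) (Fin 2) ℤ)) = 1 := rfl
  rw [this, Matrix.blockDiagonal_one]
  simp

end Aux

open Aux

/-- The form of a class is unique, since `[T]` is not a torsion element. -/
theorem isFormOf_unique (n : ℕ) (S : Set (Coh n)) (ω : Coh n) (φ ψ : Coh n → Coh n → ℤ)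
    (h1 : IsFormOf S ω (T n) φ) (h2 : IsFormOf S ω (T n) ψ) (x : Coh n) (hx : x ∈ S)
    (y : Coh n) (hy : y ∈ S) : φ x y = ψ x y := by
  have h := (h1 x hx y hy).symm.trans (h2 x hx y hy)
  have h3 := congrArg (vol n) h
  rw [map_smul, map_smul, vol_T] at h3
  simpa using h3

/-- Some `ω ∈ H^4(Z^8)` has form `φ_ω` isometric to `E_8 + 10 H`. -/
theorem result : ∃ ω ∈ H 8 4, ∃ φ : Coh 8 → Coh 8 → ℤ, IsFormOf (H 8 2) ω (T 8) φ ∧
    ∃ b : Fin 8 ⊕ Fin 2 × Fin 10 → Coh 8, IsZBasis (H 8 2) b ∧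
      ∀ i j, φ (b i) (b j) = gramE8H10 i j := by
  have hw : ev 8 omega ∈ H 8 4 := ev_mem 8 4 omega (by decide +kernel)
  have hb : ∀ i, ev 8 (bas i) ∈ ⋀[ℤ]^2 (Fin 8 → ℤ) :=
    fun i => ev_mem 8 2 _ (by revert i; decide +kernel)
  have hgram : ∀ i j, vol 8 (ev 8 (bas i) * ev 8 (bas j) * ev 8 omega) = gramE8H10 i j := by
    intro i j
    have h := coef_spec 8 _ _ _ (gram_check i j)
    rw [ev_mul, ev_mul, mon8] at h
    rw [h, map_smul, vol_T, smul_eq_mul, mul_one]
  refine ⟨ev 8 omega, hw, fun x y => vol 8 (x * y * ev 8 omega), form_spec _ hw,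
    fun i => ev 8 (bas i), ?_, hgram⟩
  obtain ⟨B, hB⟩ := exists_basis_of_gram (form 8 (ev 8 omega))
    (fun i => (⟨_, hb i⟩ : ⋀[ℤ]^2 (Fin 8 → ℤ)))
    (by rw [exteriorPower.finrank_eq]; simp; decide) gramInv (by
      rw [← gram_mul]; congr 1; ext i j; exact hgram i j)
  refine ⟨hb, ?_, ?_⟩
  · have h1 := B.linearIndependent.map' (Submodule.subtype _) (Submodule.ker_subtype _)
    have h2 : (⇑(Submodule.subtype (⋀[ℤ]^2 (Fin 8 → ℤ))) ∘ ⇑B) = fun i => ev 8 (bas i) := by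
      funext i
      simp only [Function.comp_apply, hB, Submodule.subtype_apply]
    rwa [h2] at h1
  · intro z hz
    have h1 : (⟨z, hz⟩ : ⋀[ℤ]^2 (Fin 8 → ℤ)) ∈ Submodule.span ℤ (Set.range B) := by
      rw [B.span_eq]; trivial
    have h2 := Submodule.mem_map_of_mem (f := Submodule.subtype (⋀[ℤ]^2 (Fin 8 → ℤ))) h1
    rw [Submodule.map_span, ← Set.range_comp] at h2
    have h3 : (⇑(Submodule.subtype (⋀[ℤ]^2 (Fin 8 → ℤ))) ∘ ⇑B) = fun i => ev 8 (bas i) := by
      funext i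
      simp only [Function.comp_apply, hB, Submodule.subtype_apply]
    rw [h3] at h2
    exact h2

end Pool.Agent.Results.MP_69cf13_gt.EEightPlusTenH
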